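import Pool.Agent.X266.IDL.Final

/-!
# MP_8cad3b_co: independent domination between the levels `l` and `2`

For every `l ≥ 4` there is `ε > 0` with `i(G_{l,2}(n)) ≥ (c_l + ε) (n choose 2)` for all large `n`, where
`c_l = (l + 3) / ((l - 1) (l + 1))`.

An independent dominating set consists of the pairs which are not edges of a graph `Γ` and of the `l`-cliques of
`Γ`, where every edge of `Γ` is in an `l`-clique. Proof of the bound for `Γ`: a clique `K` without vertices of
degree less than `((l - 2) / l + δ) n` has a subset `K \ {u}` with at least `δ n` common neighbours, so all pairs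
in `K \ {u}` are in many cliques; there are few such pairs. So either `Γ` needs more cliques, or more than
`n / l` of its vertices have small degree; then it has fewer edges.
-/

set_option autoImplicit false

namespace Pool.Agent.Results.MP_8cad3b_co.Independent

open Pool.Agent.X266.IDL Filter

/-- the `l`-element and the `2`-element subsets of `{0, …, n - 1}` -/
def Vert (l n : ℕ) : Type := {s : Finset (Fin n) // s.card = l ∨ s.card = 2}

noncomputable instance (l n : ℕ) : Fintype (Vert l n) := by
  unfold Vert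
  exact Fintype.ofFinite _

/-- the graph `G_{l,2}`: an `l`-set `A` and a `2`-set `B` are adjacent when `B ⊆ A` -/
def Gr (l n : ℕ) : SimpleGraph (Vert l n) :=
  SimpleGraph.fromRel fun A B => A.1.card = l ∧ B.1.card = 2 ∧ B.1 ⊆ A.1

/-- `D` is an independent dominating set of `G` -/
def IndepDom {V : Type} (G : SimpleGraph V) (D : Finset V) : Prop :=
  (∀ a ∈ D, ∀ b ∈ D, ¬ G.Adj a b) ∧ ∀ v, v ∉ D → ∃ d ∈ D, G.Adj v d

/-- the independent domination number -/
noncomputable def idom {V : Type} (G : SimpleGraph V) : ℕ :=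
  sInf {k | ∃ D : Finset V, IndepDom G D ∧ D.card = k}

theorem adj_iff {l n : ℕ} (hl : 4 ≤ l) {A B : Vert l n} : (Gr l n).Adj A B ↔
    (A.1.card = l ∧ B.1.card = 2 ∧ B.1 ⊆ A.1) ∨ (B.1.card = l ∧ A.1.card = 2 ∧ A.1 ⊆ B.1) := by
  unfold Gr
  rw [SimpleGraph.fromRel_adj]
  refine ⟨fun h => h.2, fun h => ⟨?_, h⟩⟩
  rintro rfl
  rcases h with h | h <;> omega

/-- the `2`-sets form an independent dominating set -/
theorem exists_dom {l n : ℕ} (hl : 4 ≤ l) : ∃ D : Finset (Vert l n), IndepDom (Gr l n) D := by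
  classical
  refine ⟨Finset.univ.filter fun A => A.1.card = 2, ?_, ?_⟩
  · intro a ha b hb hab
    rw [Finset.mem_filter] at ha hb
    rw [adj_iff hl] at hab
    rcases hab with h | h <;> omega
  · intro v hv
    rw [Finset.mem_filter] at hv
    have hv2 : v.1.card = l := by
      rcases v.2 with h | h
      · exact h
      · exact absurd ⟨Finset.mem_univ _, h⟩ hv
    obtain ⟨t, ht, htc⟩ := Finset.exists_subset_card_eq (show 2 ≤ v.1.card by omega)
    refine ⟨⟨t, Or.inr htc⟩, ?_, ?_⟩
    · rw [Finset.mem_filter]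
      exact ⟨Finset.mem_univ _, htc⟩
    · rw [adj_iff hl]
      exact Or.inl ⟨hv2, htc, ht⟩

open scoped Classical in
theorem ck_eq_card {V : Type} [Fintype V] (G : SimpleGraph V) {l : ℕ} (F : Finset (Finset V))
    (h : ∀ K, K ∈ F ↔ G.IsNClique l K) : ck G l Finset.univ = F.card := by
  rw [ck_univ]
  congr 1
  ext K
  rw [SimpleGraph.mem_cliqueFinset_iff, h]

/-- the graph of the pairs which are not in `D` -/
def Γ {l n : ℕ} (D : Finset (Vert l n)) : SimpleGraph (Fin n) where
  Adj x y := x ≠ y ∧ ∀ A ∈ D, A.1 ≠ {x, y}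
  symm := ⟨fun x y h => ⟨h.1.symm, fun A hA => by rw [Finset.pair_comm]; exact h.2 A hA⟩⟩
  loopless := ⟨fun x h => h.1 rfl⟩

theorem card_eq {l n : ℕ} (hl : 4 ≤ l) {D : Finset (Vert l n)} (hD : IndepDom (Gr l n) D) :
    2 * (D.card : ℝ) = (n : ℝ) * (n - 1) - pr (Γ D) Finset.univ + 2 * ck (Γ D) l Finset.univ := by
  classical
  -- the l-sets of D are the l-cliques
  have h1 : (D.filter fun A => A.1.card = l).card = ck (Γ D) l Finset.univ := by
    rw [ck_eq_card (Γ D) (Finset.univ.filter fun K => (Γ D).IsNClique l K) (by intro K; simp)]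
    refine Finset.card_bij (fun A _ => A.1) ?_ ?_ ?_
    · intro A hA
      rw [Finset.mem_filter] at hA
      rw [Finset.mem_filter, SimpleGraph.isNClique_iff]
      refine ⟨Finset.mem_univ _, ?_, hA.2⟩
      intro x hx y hy hxy
      refine ⟨hxy, fun B hB hBxy => ?_⟩
      refine hD.1 A hA.1 B hB ?_
      rw [adj_iff hl]
      left
      refine ⟨hA.2, ?_, ?_⟩
      · rw [hBxy]; exact Finset.card_pair hxy
      · rw [hBxy, Finset.insert_subset_iff, Finset.singleton_subset_iff]
        exact ⟨hx, hy⟩
    · intro A _ B _ hAB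
      exact Subtype.ext hAB
    · intro K hK
      rw [Finset.mem_filter, SimpleGraph.isNClique_iff] at hK
      replace hK := hK.2
      refine ⟨⟨K, Or.inl hK.2⟩, ?_, rfl⟩
      rw [Finset.mem_filter]
      refine ⟨?_, hK.2⟩
      by_contra hKD
      obtain ⟨d, hd, hadj⟩ := hD.2 _ hKD
      rw [adj_iff hl] at hadj
      have hadj' : d.1.card = 2 ∧ d.1 ⊆ K := by
        rcases hadj with h | h
        · exact ⟨h.2.1, h.2.2⟩
        · have h2 : K.card = 2 := h.2.1
          have h3 := hK.2
          omega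
      obtain ⟨x, y, hxy, hdxy⟩ := Finset.card_eq_two.1 hadj'.1
      have hx : x ∈ K := hadj'.2 (by rw [hdxy]; simp)
      have hy : y ∈ K := hadj'.2 (by rw [hdxy]; simp)
      exact (hK.1 hx hy hxy).2 d hd hdxy
  -- the pairs of D are the non-edges
  have h2 : 2 * (D.filter fun A => A.1.card = 2).card + pr (Γ D) Finset.univ = n * (n - 1) := by
    have h3 : (Finset.univ : Finset (Fin n)).offDiag.card = n * (n - 1) := by
      rw [Finset.offDiag_card, Finset.card_univ, Fintype.card_fin, Nat.mul_sub_one]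
    rw [← h3, ← Finset.card_filter_add_card_filter_not (s := (Finset.univ : Finset (Fin n)).offDiag)
      (fun z => (Γ D).Adj z.1 z.2), add_comm]
    congr 1
    · rw [pr_univ]
      congr 1
      ext z
      rw [Finset.mem_filter, Finset.mem_filter, Finset.mem_offDiag]
      exact ⟨fun h => ⟨⟨Finset.mem_univ _, Finset.mem_univ _, h.2.ne⟩, h.2⟩,
        fun h => ⟨Finset.mem_univ _, h.2⟩⟩
    · rw [mul_comm, ← smul_eq_mul, ← Finset.sum_const]
      have h4 : ((Finset.univ : Finset (Fin n)).offDiag.filter fun z => ¬ (Γ D).Adj z.1 z.2).card =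
          ∑ A ∈ D.filter (fun A => A.1.card = 2),
            (((Finset.univ : Finset (Fin n)).offDiag.filter fun z => ¬ (Γ D).Adj z.1 z.2).filter
              fun z => A.1 = {z.1, z.2}).card := by
        rw [← Finset.card_biUnion]
        · congr 1
          ext z
          rw [Finset.mem_biUnion]
          constructor
          · intro hz
            have hz' := hz
            rw [Finset.mem_filter, Finset.mem_offDiag] at hz'
            obtain ⟨⟨-, -, hne⟩, hz2⟩ := hz'
            have h5 : ∃ A ∈ D, A.1 = {z.1, z.2} := by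
              by_contra h
              push Not at h
              exact hz2 ⟨hne, h⟩
            obtain ⟨A, hA, hAz⟩ := h5
            exact ⟨A, Finset.mem_filter.2 ⟨hA, by rw [hAz]; exact Finset.card_pair hne⟩,
              Finset.mem_filter.2 ⟨hz, hAz⟩⟩
          · rintro ⟨A, -, hA⟩
            exact (Finset.mem_filter.1 hA).1
        · intro A _ B _ hAB
          rw [Function.onFun, Finset.disjoint_left]
          intro z hz hz'
          rw [Finset.mem_filter] at hz hz'
          exact hAB (Subtype.ext (hz.2.trans hz'.2.symm))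
      rw [h4]
      refine Finset.sum_congr rfl fun A hA => ?_
      rw [Finset.mem_filter] at hA
      obtain ⟨x, y, hxy, hAxy⟩ := Finset.card_eq_two.1 hA.2
      have h5 : (((Finset.univ : Finset (Fin n)).offDiag.filter fun z => ¬ (Γ D).Adj z.1 z.2).filter
          fun z => A.1 = {z.1, z.2}) = {(x, y), (y, x)} := by
        ext z
        rw [Finset.mem_filter, Finset.mem_filter, Finset.mem_offDiag, Finset.mem_insert,
          Finset.mem_singleton]
        constructor
        · rintro ⟨⟨⟨-, -, hne⟩, -⟩, h6⟩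
          rw [hAxy] at h6
          have hx : x ∈ ({z.1, z.2} : Finset (Fin n)) := by rw [← h6]; simp
          have hy : y ∈ ({z.1, z.2} : Finset (Fin n)) := by rw [← h6]; simp
          rw [Finset.mem_insert, Finset.mem_singleton] at hx hy
          rcases hx with hx | hx <;> rcases hy with hy | hy
          · exact absurd (hx.trans hy.symm) hxy
          · left; exact Prod.ext hx.symm hy.symm
          · right; exact Prod.ext hy.symm hx.symm
          · exact absurd (hx.trans hy.symm) hxy
        · rintro (h6 | h6)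
          · subst h6
            exact ⟨⟨⟨Finset.mem_univ _, Finset.mem_univ _, hxy⟩, fun h => h.2 A hA.1 hAxy⟩, hAxy⟩
          · subst h6
            refine ⟨⟨⟨Finset.mem_univ _, Finset.mem_univ _, hxy.symm⟩, fun h => h.2 A hA.1 ?_⟩, ?_⟩
            · rw [hAxy, Finset.pair_comm]
            · rw [hAxy, Finset.pair_comm]
      rw [h5, Finset.card_pair]
      intro h
      exact hxy (Prod.mk.injEq _ _ _ _ ▸ h).1
  have h3 : D.card = (D.filter fun A => A.1.card = l).card + (D.filter fun A => A.1.card = 2).card := by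
    rw [← Finset.card_filter_add_card_filter_not (s := D) (fun A => A.1.card = l)]
    congr 2
    ext A
    rw [Finset.mem_filter, Finset.mem_filter]
    refine and_congr_right fun _ => ?_
    have := A.2
    omega
  rw [h3, h1]
  have h4 : (2 : ℝ) * (D.filter fun A => A.1.card = 2).card + pr (Γ D) Finset.univ = n * (n - 1) := by
    rcases Nat.eq_zero_or_pos n with h0 | h0
    · subst h0
      have : 2 * (D.filter fun A => A.1.card = 2).card + pr (Γ D) Finset.univ = 0 := by simpa using h2
      have h5 : ((2 * (D.filter fun A => A.1.card = 2).card + pr (Γ D) Finset.univ : ℕ) : ℝ) = 0 := by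
        rw [this]; simp
      push_cast at h5 ⊢
      linarith
    · have h5 : ((2 * (D.filter fun A => A.1.card = 2).card + pr (Γ D) Finset.univ : ℕ) : ℝ) =
        ((n * (n - 1) : ℕ) : ℝ) := by rw [h2]
      push_cast [Nat.cast_sub (show 1 ≤ n by omega)] at h5
      exact h5
  push_cast
  linarith

theorem covered {l n : ℕ} (hl : 4 ≤ l) {D : Finset (Vert l n)} (hD : IndepDom (Gr l n) D)
    (x y : Fin n) (hxy : (Γ D).Adj x y) :
    ∃ K : Finset (Fin n), (Γ D).IsNClique l K ∧ x ∈ K ∧ y ∈ K := by
  classical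
  have h1 : (⟨{x, y}, Or.inr (Finset.card_pair hxy.1)⟩ : Vert l n) ∉ D := fun h => hxy.2 _ h rfl
  obtain ⟨d, hd, hadj⟩ := hD.2 _ h1
  rw [adj_iff hl] at hadj
  have h2 : ({x, y} : Finset (Fin n)).card = 2 := Finset.card_pair hxy.1
  have h3 : d.1.card = l ∧ ({x, y} : Finset (Fin n)) ⊆ d.1 := by
    rcases hadj with h | h
    · have := h.1
      simp only [h2] at this
      omega
    · exact ⟨h.1, h.2.2⟩
  rw [Finset.insert_subset_iff, Finset.singleton_subset_iff] at h3
  refine ⟨d.1, ?_, h3.2.1, h3.2.2⟩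
  rw [SimpleGraph.isNClique_iff]
  refine ⟨?_, h3.1⟩
  intro a ha b hb hab
  refine ⟨hab, fun B hB hBab => ?_⟩
  refine hD.1 d hd B hB ?_
  rw [adj_iff hl]
  left
  refine ⟨h3.1, ?_, ?_⟩
  · rw [hBab]; exact Finset.card_pair hab
  · rw [hBab, Finset.insert_subset_iff, Finset.singleton_subset_iff]
    exact ⟨ha, hb⟩

/-- For every `l ≥ 4` there is `ε > 0` such that for all large `n` every independent dominating set of
`G_{l,2}(n)` has at least `(c_l + ε) (n choose 2)` elements, `c_l = (l + 3) / ((l - 1) (l + 1))`. So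
`i(G_{l,2}) ≥ (c_l + ε) (n choose 2)` for large `n`, and the lower limit of
`i(G_{l,2}) / (n choose 2)` is greater than `c_l`. -/
theorem result : ∀ l : ℕ, 4 ≤ l →
    (∃ ε : ℝ, 0 < ε ∧ ∃ n₀ : ℕ, ∀ n : ℕ, n₀ ≤ n →
      (((l : ℝ) + 3) / ((l - 1) * (l + 1)) + ε) * (n.choose 2 : ℝ) ≤ (idom (Gr l n) : ℝ)) ∧
    ((l : ℝ) + 3) / ((l - 1) * (l + 1)) <
      liminf (fun n : ℕ => (idom (Gr l n) : ℝ) / (n.choose 2 : ℝ)) atTop := by
  intro l hl
  have main : ∃ ε : ℝ, 0 < ε ∧ ∃ n₀ : ℕ, ∀ n : ℕ, n₀ ≤ n →
      (((l : ℝ) + 3) / ((l - 1) * (l + 1)) + ε) * (n.choose 2 : ℝ) ≤ (idom (Gr l n) : ℝ) := by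
    obtain ⟨ε, hε, n₀, h⟩ := graph_main hl
    refine ⟨ε, hε, n₀ + 1, fun n hn => ?_⟩
    have hne : {k | ∃ D : Finset (Vert l n), IndepDom (Gr l n) D ∧ D.card = k}.Nonempty := by
      obtain ⟨D, hD⟩ := exists_dom (l := l) (n := n) hl
      exact ⟨_, D, hD, rfl⟩
    obtain ⟨D, hD, hDk⟩ := Nat.sInf_mem hne
    have h1 : (idom (Gr l n) : ℝ) = D.card := by
      rw [idom, ← hDk]
    have h2 := h n (by omega) (Γ D) (covered hl hD)
    rw [← card_eq hl hD] at h2
    rw [h1, Nat.cast_choose_two]
    have h3 : (((l : ℝ) + 3) / ((l - 1) * (l + 1)) + ε) * ((n : ℝ) * (n - 1) / 2) =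
        (cc l + ε) * ((n : ℝ) * (n - 1)) / 2 := by
      unfold cc
      ring
    rw [h3]
    linarith
  refine ⟨main, ?_⟩
  obtain ⟨ε, hε, n₀, h⟩ := main
  -- upper bound for the ratio
  have hup : ∀ n : ℕ, (idom (Gr l n) : ℝ) / (n.choose 2 : ℝ) ≤ 1 := by
    classical
    intro n
    have h1 : idom (Gr l n) ≤ n.choose 2 := by
      have h2 : IndepDom (Gr l n) (Finset.univ.filter fun A => A.1.card = 2) := by
        refine ⟨?_, ?_⟩
        · intro a ha b hb hab
          rw [Finset.mem_filter] at ha hb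
          rw [adj_iff hl] at hab
          rcases hab with h | h <;> omega
        · intro v hv
          rw [Finset.mem_filter] at hv
          have hv2 : v.1.card = l := by
            rcases v.2 with h | h
            · exact h
            · exact absurd ⟨Finset.mem_univ _, h⟩ hv
          obtain ⟨t, ht, htc⟩ := Finset.exists_subset_card_eq (show 2 ≤ v.1.card by omega)
          refine ⟨⟨t, Or.inr htc⟩, ?_, ?_⟩
          · rw [Finset.mem_filter]
            exact ⟨Finset.mem_univ _, htc⟩
          · rw [adj_iff hl]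
            exact Or.inl ⟨hv2, htc, ht⟩
      have h4 : idom (Gr l n) ≤ (Finset.univ.filter fun A : Vert l n => A.1.card = 2).card :=
        Nat.sInf_le ⟨_, h2, rfl⟩
      refine h4.trans ?_
      have h3 : (Finset.univ.filter fun A : Vert l n => A.1.card = 2).card ≤
          (Finset.powersetCard 2 (Finset.univ : Finset (Fin n))).card := by
        refine Finset.card_le_card_of_injOn (fun A => A.1) ?_ ?_
        · intro A hA
          rw [Finset.mem_coe, Finset.mem_filter] at hA
          rw [Finset.mem_coe, Finset.mem_powersetCard]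
          exact ⟨Finset.subset_univ _, hA.2⟩
        · intro A _ B _ hAB
          exact Subtype.ext hAB
      rw [Finset.card_powersetCard, Finset.card_univ, Fintype.card_fin] at h3
      exact h3
    refine div_le_one_of_le₀ (by exact_mod_cast h1) (Nat.cast_nonneg _)
  have hlow : ∀ᶠ n : ℕ in atTop, ((l : ℝ) + 3) / ((l - 1) * (l + 1)) + ε ≤
      (idom (Gr l n) : ℝ) / (n.choose 2 : ℝ) := by
    filter_upwards [eventually_ge_atTop (n₀ + 2)] with n hn
    have h1 := h n (by omega)
    have h2 : (0 : ℝ) < (n.choose 2 : ℝ) := by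
      exact_mod_cast Nat.choose_pos (by omega : 2 ≤ n)
    rwa [le_div_iff₀ h2]
  have h3 : ((l : ℝ) + 3) / ((l - 1) * (l + 1)) + ε ≤
      liminf (fun n : ℕ => (idom (Gr l n) : ℝ) / (n.choose 2 : ℝ)) atTop := by
    have hb : IsBoundedUnder (· ≤ ·) atTop
        (fun n : ℕ => (idom (Gr l n) : ℝ) / (n.choose 2 : ℝ)) := isBoundedUnder_of ⟨1, hup⟩
    exact le_liminf_of_le hb.isCoboundedUnder_ge hlow
  linarith

end Pool.Agent.Results.MP_8cad3b_co.Independent
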